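import Pool.Agent.H63.SEP.Stmts2

/-!
Module TCV of project SEP: every point of the extension is coded on some side.
-/

set_option linter.unusedVariables false
set_option linter.unusedSectionVars false
set_option synthInstance.maxSize 100000

namespace SW.SEP

open SW

/-- the embedding of the model into the extension is a transitive embedding -/
theorem tcv_emb {M : Type} [SetStr M] [ZF M] {F : FPoset M} {G : M → Prop} (hG : Gen F G) :
    TEmb (emb F G) where
  inj := fun x y h => ((embF hG).inj x y).1 h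
  mem := fun x y => (embF hG).mem x y
  tr := fun z x h => by
    obtain ⟨y, _, hy⟩ := (embF hG).trans z x h
    exact ⟨y, hy⟩

section
variable {M : Type} [SetStr M] [ZFC M]

/-- below `p` there is a pair of `τ` with first component `n` -/
def TcvA (τ n p : M) : Prop := ∃ q a, Sub q p ∧ E (opair q (opair n a)) τ

theorem TcvA_df : Cl3 (fun τ n p : M => TcvA τ n p) := by unfold TcvA; infer_instance

instance {n : ℕ} {t s u : (Fin n → M) → M} [ht : DfT t] [hs : DfT s] [hu : DfT u] :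
    Df (fun v => TcvA (t v) (s v) (u v)) := TcvA_df.comp3 ht hs hu

/-- below `p` the name is total -/
def TcvT (U τ p : M) : Prop := ∀ n, E n om → ∀ q, E q (PS U) → Sub p q →
  ∃ q', E q' (PS U) ∧ Sub q q' ∧ TcvA τ n q'

theorem TcvT_df : Cl3 (fun U τ p : M => TcvT U τ p) := by unfold TcvT; infer_instance

instance {n : ℕ} {t s u : (Fin n → M) → M} [ht : DfT t] [hs : DfT s] [hu : DfT u] :
    Df (fun v => TcvT (t v) (s v) (u v)) := TcvT_df.comp3 ht hs hu

/-- two different values below `p` -/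
def TcvB (τ p : M) : Prop := ∃ q q' n a a', Sub q p ∧ Sub q' p ∧ E (opair q (opair n a)) τ ∧
  E (opair q' (opair n a')) τ ∧ ¬ a = a'

theorem TcvB_df : Cl2 (fun τ p : M => TcvB τ p) := by unfold TcvB; infer_instance

instance {n : ℕ} {t s : (Fin n → M) → M} [ht : DfT t] [hs : DfT s] :
    Df (fun v => TcvB (t v) (s v)) := TcvB_df.comp2 ht hs

/-- pairs in the value of a name of a subset of `om × om` -/
theorem tcv_pair (hv : VLXStmt) (htef : TEFStmt) {I τ : M} {G : M → Prop} (hG : Gen (PF I) G)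
    [ZFC (Ext (PF I) G)] (hτ : Nm I (prod om om) τ) {x : Ext (PF I) G}
    (hx : x = mk (PF I) G (vl τ)) {n : M} {y : Ext (PF I) G}
    (h : E (opair (emb (PF I) G n) y) x) :
    ∃ q a, E (opair q (opair n a)) τ ∧ G q ∧ y = emb (PF I) G a := by
  have hT := htef M (Ext (PF I) G) (emb (PF I) G) (tcv_emb hG)
  subst hx
  obtain ⟨q, b, hb, hq, hz⟩ := (hv M I (prod om om) τ G hτ I hG _).1 h
  obtain ⟨q', b', _, hb', he⟩ := hτ.2 _ hb
  rw [opair_inj] at he
  obtain ⟨rfl, rfl⟩ := he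
  obtain ⟨n', a, hn', ha, rfl⟩ := mem_prod'.1 hb'
  rw [hT.opair, opair_inj] at hz
  obtain ⟨h1, h2⟩ := hz
  have h3 := (tcv_emb hG).inj _ _ h1
  subst h3
  exact ⟨q, a, hb, hq, h2⟩

/-- TCV -/
theorem sep_tcv (hatm : ATMStmt) (hpsf : PSFStmt) (hugd : UGDStmt) (huix : UIXStmt)
    (hclc : CLCStmt) (hsup : SUPStmt) (hnam : NAMStmt) (hvlx : VLXStmt) (hhbf : HBFStmt)
    (htef : TEFStmt) (hgec : GECStmt) (hcbt : CBTStmt) : TCVStmt := by
  intro M _ _ _ H r G hH hr hR hG _ x hx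
  have hps := hpsf M
  have hat := hatm M
  have hcb := hcbt M
  have hb := hhbf M H hH
  obtain ⟨⟨hSU, hUH, hUc⟩, -⟩ := hugd M H
  have hT := htef M (Ext (PF (UU H)) G) (emb (PF (UU H)) G) (tcv_emb hG)
  have hom : (emb (PF (UU H)) G om) = om := hT.om
  -- the name
  obtain ⟨τ, hτ, hxτ⟩ := hnam M (UU H) (prod om om) G hSU hG (hcb.prod hcb.om hcb.om) x (by
    rw [hT.prod, hom]
    intro z hz
    obtain ⟨a, b, ha, hb, rfl⟩ := hx.1 z hz
    exact mem_prod.2 ⟨ha, hb⟩)
  -- a condition below which the name is total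
  obtain ⟨p1, hp1, hp1T⟩ : ∃ p, G p ∧ TcvT (UU H) τ p := by
    obtain ⟨p, hp, h⟩ := (genF hG).meetC (fun p => TcvT (UU H) τ p ∨
      ∃ n, E n om ∧ ∀ q, E q (PS (UU H)) → Sub p q → ¬ TcvA τ n q) inferInstance (by
      intro p hp
      by_cases h : TcvT (UU H) τ p
      · exact ⟨p, hp, Sub.refl p, Or.inl h⟩
      · unfold TcvT at h
        push Not at h
        obtain ⟨n, hn, q, hq, hpq, h⟩ := h
        exact ⟨q, hq, hpq, Or.inr ⟨n, hn, h⟩⟩)
    rcases h with h | ⟨n, hn, h⟩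
    · exact ⟨p, hp, h⟩
    · exfalso
      obtain ⟨y, hy⟩ := hx.2.1 (emb _ G n) (by
        rw [← hom]
        exact ((embF hG).mem _ _).2 hn)
      obtain ⟨q, a, hqa, hq, rfl⟩ := tcv_pair hvlx htef hG hτ hxτ hy
      obtain ⟨s, hs, hsp, hsq⟩ := hG.dir p q hp hq
      exact h s (hG.sub _ hs) hsp ⟨q, a, hsq, hqa⟩
  -- a condition below which the name is single valued
  obtain ⟨p2, hp2, hp2T⟩ : ∃ p, G p ∧ ∀ q, E q (PS (UU H)) → Sub p q → ¬ TcvB τ q := by
    obtain ⟨p, hp, h⟩ := (genF hG).meetC (fun p => (∀ q, E q (PS (UU H)) → Sub p q → ¬ TcvB τ q) ∨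
      TcvB τ p) inferInstance (by
      intro p hp
      by_cases h : ∀ q, E q (PS (UU H)) → Sub p q → ¬ TcvB τ q
      · exact ⟨p, hp, Sub.refl p, Or.inl h⟩
      · push Not at h
        obtain ⟨q, hq, hpq, h⟩ := h
        exact ⟨q, hq, hpq, Or.inr h⟩)
    rcases h with h | ⟨q, q', n, a, a', hq, hq', hqa, hqa', hne⟩
    · exact ⟨p, hp, h⟩
    · exfalso
      have hup : ∀ q a, Sub q p → E (opair q (opair n a)) τ →
          E (opair (emb (PF (UU H)) G n) (emb (PF (UU H)) G a)) x := by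
        intro q a hq hqa
        rw [hxτ, ← hT.opair]
        refine (hvlx M (UU H) (prod om om) τ G hτ (UU H) hG _).2 ⟨q, _, hqa, ?_, rfl⟩
        obtain ⟨q1, a1, h1, -, h2⟩ := hτ.2 _ hqa
        rw [opair_inj] at h2
        obtain ⟨rfl, -⟩ := h2
        exact hG.up p q hp h1 hq
      exact hne ((tcv_emb hG).inj _ _ (hx.2.2 _ _ _ (hup q a hq hqa) (hup q' a' hq' hqa')))
  obtain ⟨p0, hp0, hp01, hp02⟩ := hG.dir p1 p2 hp1 hp2
  -- the codes
  obtain ⟨q, hq, -, B, i, t, hc⟩ := (genF hG).meetB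
    (fun q => ∃ B i t, E (cod B r q τ i t) (UU H)) inferInstance p0 hp0 (by
    intro p hp hpp
    obtain ⟨c1, hc1, hc1U, hc1p⟩ := (hsup M (UU H) hSU).1 p hp
    obtain ⟨c2, hc2, hc2U, hc2p⟩ := (hsup M (UU H) hSU).2 (prod om om) τ hτ
    obtain ⟨B, hcB, hBU, hBc, hBS⟩ := hclc M (UU H) (bun (sing r) (bun c1 c2)) hSU (by
      intro z hz
      rw [mem_bun, mem_bun, mem_sing] at hz
      rcases hz with rfl | hz | hz
      · exact hr
      · exact hc1U _ hz
      · exact hc2U _ hz) (hcb.bun (hcb.fin (by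
        have : (sing r : M) = ins r emp := ext fun z => by
          rw [mem_sing, mem_ins]
          exact ⟨fun h => Or.inr h, fun h => h.elim (fun h => absurd h (not_mem_emp z)) id⟩
        rw [this]
        exact finF.ins finF.emp)) (hcb.bun hc1 hc2))
    have hrB : E r B := hcB _ (by rw [mem_bun, mem_sing]; exact Or.inl rfl)
    have hpB : E p (PS B) := hc1p B fun z hz => hcB z (by
      rw [mem_bun, mem_bun]; exact Or.inr (Or.inl hz))
    have hτB : Nm B (prod om om) τ := hc2p B fun z hz => hcB z (by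
      rw [mem_bun, mem_bun]; exact Or.inr (Or.inr hz))
    have hBcl : ClB B := fun d hd => (hBS d hd).1
    have hBH : Sub B H := Sub.trans hBU hUH
    have hBinH : E B H := hH.2 B hBH hBc
    have hτH : E τ H := hb.Nm hBH (by
      intro z hz
      obtain ⟨a, b, ha, hb', rfl⟩ := mem_prod'.1 hz
      exact hb.opair (hb.om.2 _ ha) (hb.om.2 _ hb')) hτB
    have hTot : ∀ q, Sub p q → Tot B q τ := by
      intro q hpq s hs hqs n hn
      obtain ⟨s', hs', hss', q', a, hq's', hqa⟩ := hp1T n hn s (hps.mono hBU hs)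
        (Sub.trans (Sub.trans (Sub.trans hp01 hpp) hpq) hqs)
      obtain ⟨q1, a1, h1, -, h2⟩ := hτB.2 _ hqa
      rw [opair_inj] at h2
      obtain ⟨rfl, -⟩ := h2
      refine ⟨rJ B s', q', a, hps.rst hSU hBS hs', ?_, ?_, hqa⟩
      · have := hps.rmono (J := B) hss'
        rwa [hps.rself hs (Sub.refl B)] at this
      · have := hps.rmono (J := B) hq's'
        rwa [hps.rself h1 (Sub.refl B)] at this
    have hFun : ∀ q, Sub p q → Fun B q τ := by
      intro q hpq s hs hqs q' q'' n a a' hq' hq'' hqa hqa'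
      by_contra hne
      exact hp2T s (hps.mono hBU hs) (Sub.trans (Sub.trans (Sub.trans hp02 hpp) hpq) hqs)
        ⟨q', q'', n, a, a', hq', hq'', hqa, hqa', hne⟩
    by_cases hcase : ∃ q1, E q1 (PS B) ∧ Sub p q1 ∧ ¬ CanO H (fun r' => OO H r') r B q1 τ
    · obtain ⟨q1, hq1, hpq1, hcan⟩ := hcase
      refine ⟨q1, hps.mono hBU hq1, hpq1, B, emp, emp, ?_⟩
      refine (huix M H hH).2.2 B r q1 τ emp emp hBU
        (hb.cod hBinH (hUH _ hr) (hb.PS hBH _ hq1) hτH hb.emp hb.emp) ?_ ?_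
      · exact ⟨B, r, q1, τ, emp, emp, rfl, hBc, hBcl, hrB, Or.inr hR, hq1, hτB, hTot q1 hpq1,
          hFun q1 hpq1, hat.mem2.2 (Or.inl rfl)⟩
      · exact fun _ => ⟨B, q1, τ, emp, emp, rfl, Or.inl ⟨rfl, hcan⟩⟩
    · push Not at hcase
      refine ⟨p, hp, Sub.refl p, B, one, emp, ?_⟩
      refine (huix M H hH).2.2 B r p τ one emp hBU
        (hb.cod hBinH (hUH _ hr) (hb.PS hBH _ hpB) hτH hb.one hb.emp) ?_ ?_
      · exact ⟨B, r, p, τ, one, emp, rfl, hBc, hBcl, hrB, Or.inr hR, hpB, hτB,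
          hTot p (Sub.refl p), hFun p (Sub.refl p), hat.mem2.2 (Or.inr rfl)⟩
      · exact fun _ => ⟨B, p, τ, one, emp, rfl, Or.inr ⟨rfl, hcase⟩⟩)
  have hcs := hat.sycd hSU hc
  have h := hgec M (UU H) B r q τ i t G hSU hG hc hq
  rw [← hxτ] at h
  rcases hat.mem2.1 hcs.2.2.2.2.2.2.2.2.2.2 with rfl | rfl
  · exact Or.inl h
  · exact Or.inr h

end

end SW.SEP
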